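import Mathlib
import Pool.Agent.H389R2.Bs.Final

namespace Pool.Agent.Results.MP_2cf87a_nt.FullDimension

/-- The distance `‖x‖` from the real number `x` to the nearest integer. -/
noncomputable def distZ (x : ℝ) : ℝ := |x - round x|

/-- The set `B_s` of all `(α, β)` in the Euclidean plane with
`inf_{n ≥ 1} n * m_n ^ s * M_n ^ (2 - s) > 0`, where `m_n = min (‖nα‖, ‖nβ‖)` and
`M_n = max (‖nα‖, ‖nβ‖)`. -/
def B (s : ℝ) : Set (EuclideanSpace ℝ (Fin 2)) :=
  {p | 0 < ⨅ n : ℕ+, ((n : ℕ) : ℝ) *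
    min (distZ ((n : ℕ) * p 0)) (distZ ((n : ℕ) * p 1)) ^ s *
    max (distZ ((n : ℕ) * p 0)) (distZ ((n : ℕ) * p 1)) ^ (2 - s)}

/-- For every `0 < s < 1` the Hausdorff dimension of `B_s` equals `2`. -/
theorem result (s : ℝ) (hs0 : 0 < s) (hs1 : s < 1) : dimH (B s) = 2 := by
  apply le_antisymm
  · have h := dimH_mono (Set.subset_univ (B s))
    refine h.trans (le_of_eq ?_)
    rw [Real.dimH_univ_eq_finrank]
    simp
  · set e : EuclideanSpace ℝ (Fin 2) ≃L[ℝ] ℝ × ℝ :=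
      (EuclideanSpace.equiv (Fin 2) ℝ).trans (ContinuousLinearEquiv.finTwoArrow ℝ ℝ) with he
    have h1 : B s = e ⁻¹' (H389R2.Bs.BsProd s) := rfl
    rw [h1, ContinuousLinearEquiv.dimH_preimage]
    exact H389R2.Bs.dimH_BsProd hs0 hs1

end Pool.Agent.Results.MP_2cf87a_nt.FullDimension
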